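import Pool.Agent.Lib_helper41.TK.Defs
import Pool.Agent.Lib_helper68.LEV.GID

/-! TK, block AA. -/

set_option autoImplicit false

namespace Pool.Agent.TK

open Pool.Agent.LEV Pool.Agent.LVB Pool.Agent.KSL
open Pool.Agent.LK (PQ)
open Pool.Agent.FG61 (mu phi cc ff AA Lam)
open Complex MeasureTheory Filter Topology UpperHalfPlane ModularGroup ProbabilityTheory
open scoped MatrixGroups Modular ENNReal ModularForm ComplexConjugate ContDiff

section
variable {N : ℕ} [Fact N.Prime] {q : ℕ} [NeZero q]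

/-- the value of the character at the partner of a residue -/
theorem aa_chi {χ : DirichletCharacter ℂ q} (hχ : PQ χ) (hN : χ (-(N : ZMod q)) = 1) {c : ℕ}
    (hc : 0 < c) (hqc : q ∣ c) (hcN : c.Coprime N) {j : ℕ} (hj : c.Coprime j) :
    χ (GID_al N c j : ZMod q) = χ (j : ZMod q) := by
  have hcop : (N * j).Coprime c := Nat.Coprime.mul_left hcN.symm hj.symm
  have hjq : IsUnit (j : ZMod q) := by
    rw [ZMod.isUnit_iff_coprime]
    exact (Nat.Coprime.coprime_dvd_left hqc hj).symm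
  obtain ⟨b, hb⟩ := GID_al_ex (N := N) hc hcop
  have h1 : -(N : ZMod q) * (GID_al N c j : ZMod q) * (j : ZMod q) = 1 := by
    have h2 : (((N : ℤ) * (GID_al N c j) * j + 1 : ℤ) : ZMod q) = 0 := by
      rw [ZMod.intCast_zmod_eq_zero_iff_dvd]
      rw [hb]
      exact Dvd.dvd.mul_right (by exact_mod_cast hqc) b
    push_cast at h2
    linear_combination -h2
  have h3 : χ (-(N : ZMod q)) * χ (GID_al N c j : ZMod q) * χ (j : ZMod q) = 1 := by
    rw [← map_mul, ← map_mul, h1, map_one]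
  rw [hN, one_mul] at h3
  have h4 : χ (j : ZMod q) ^ 2 = 1 := by
    have h5 := hχ.sq
    have h6 : (χ ^ 2) (j : ZMod q) = χ (j : ZMod q) ^ 2 := MulChar.pow_apply' χ two_ne_zero _
    rw [← h6, h5, MulChar.one_apply hjq]
  calc χ (GID_al N c j : ZMod q) = χ (GID_al N c j : ZMod q) * χ (j : ZMod q) ^ 2 := by
        rw [h4, mul_one]
    _ = (χ (GID_al N c j : ZMod q) * χ (j : ZMod q)) * χ (j : ZMod q) := by ring
    _ = χ (j : ZMod q) := by rw [h3, one_mul]

/-- the halves of the vertical lines over the fractions with denominator `c` -/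
theorem tw_fold {f : S2 N} (hf : IsNew f) (h1 : co f N = 1) {χ : DirichletCharacter ℂ q}
    (hχ : PQ χ) (hN : χ (-(N : ZMod q)) = 1) {c : ℕ} (hc : 0 < c) (hqc : q ∣ c)
    (hcN : c.Coprime N) :
    (∀ j : ℕ, c.Coprime j → IntegrableOn (fun v : ℝ => ev f ((j : ℝ) / c) v) (Set.Ioi 0)) ∧
    ∑ j ∈ RR c, χ j * ∫ v in Set.Ioi (0 : ℝ), ev f ((j : ℝ) / c) v =
      2 * ∑ j ∈ RR c, χ j * ∫ v in Set.Ioi (rq N c), ev f ((j : ℝ) / c) v := by
  have hNR : (0 : ℝ) < N := by exact_mod_cast (Fact.out : N.Prime).pos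
  have hcR : (0 : ℝ) < c := by exact_mod_cast hc
  have hsN : 0 < Real.sqrt N := Real.sqrt_pos.mpr hNR
  refine ⟨(geo_fold_pr hf h1 hc hcN).1, ?_⟩
  set κ : ℝ := rq N c with hκ_def
  have hκ : 0 < κ := by
    rw [hκ_def]
    unfold rq
    positivity
  have hun : Set.Ioc 0 κ ∪ Set.Ioi κ = Set.Ioi 0 := Set.Ioc_union_Ioi_eq_Ioi hκ.le
  have hcop : ∀ j : ℕ, c.Coprime j → (N * j).Coprime c := fun j hj =>
    Nat.Coprime.mul_left hcN.symm hj.symm
  have hnear : ∀ j : ℕ, c.Coprime j → IntegrableOn (fun v : ℝ => ev f ((j : ℝ) / c) v)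
      (Set.Ioo 0 κ) ∧ ∫ v in Set.Ioo 0 κ, ev f ((j : ℝ) / c) v =
        ∫ v in Set.Ioi κ, ev f ((GID_al N c j : ℝ) / c) v := fun j hj =>
    GID_near hf h1 hc (GID_al_ex hc (hcop j hj))
  have hI1 : ∀ j : ℕ, c.Coprime j → IntegrableOn (fun v : ℝ => ev f ((j : ℝ) / c) v)
      (Set.Ioc 0 κ) := by
    intro j hj
    rw [integrableOn_Ioc_iff_integrableOn_Ioo]
    exact (hnear j hj).1
  have hI2 : ∀ j : ℕ, IntegrableOn (fun v : ℝ => ev f ((j : ℝ) / c) v) (Set.Ioi κ) :=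
    fun j => GID_int f _ hκ
  have hsplit : ∀ j : ℕ, c.Coprime j → ∫ v in Set.Ioi (0 : ℝ), ev f ((j : ℝ) / c) v =
      (∫ v in Set.Ioi κ, ev f ((GID_al N c j : ℝ) / c) v) +
        ∫ v in Set.Ioi κ, ev f ((j : ℝ) / c) v := by
    intro j hj
    rw [← hun, setIntegral_union (Set.Ioc_disjoint_Ioi le_rfl) measurableSet_Ioi (hI1 j hj)
      (hI2 j), integral_Ioc_eq_integral_Ioo, (hnear j hj).2]
  have hmem : ∀ j : ℕ, j ∈ RR c ↔ j < c ∧ c.Coprime j := by
    intro j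
    unfold RR
    rw [Finset.mem_filter, Finset.mem_range]
  have hterm : ∀ j ∈ RR c, χ j * ∫ v in Set.Ioi (0 : ℝ), ev f ((j : ℝ) / c) v =
      χ (GID_al N c j) * (∫ v in Set.Ioi κ, ev f ((GID_al N c j : ℝ) / c) v) +
        χ j * ∫ v in Set.Ioi κ, ev f ((j : ℝ) / c) v := by
    intro j hj
    have hj' := (hmem j).1 hj
    rw [hsplit j hj'.2, mul_add, aa_chi hχ hN hc hqc hcN hj'.2]
  rw [Finset.sum_congr rfl hterm, Finset.sum_add_distrib, two_mul]
  congr 1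
  refine Finset.sum_nbij' (fun j => GID_al N c j) (fun j => GID_al N c j) ?_ ?_ ?_ ?_ ?_
  · intro j hj
    rw [hmem] at hj ⊢
    exact ⟨GID_al_lt hc, GID_al_coprime hc (hcop j hj.2)⟩
  · intro j hj
    rw [hmem] at hj ⊢
    exact ⟨GID_al_lt hc, GID_al_coprime hc (hcop j hj.2)⟩
  · intro j hj
    rw [hmem] at hj
    exact GID_al_inv hc hcN hj.2 hj.1
  · intro j hj
    rw [hmem] at hj
    exact GID_al_inv hc hcN hj.2 hj.1
  · intro j hj
    rfl

end

end Pool.Agent.TK
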