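import Pool.Agent.Lib_helper41.TK.Defs
import Pool.Agent.Lib_helper68.KSLF.WBD

/-! TK, block TF. -/

set_option autoImplicit false

namespace Pool.Agent.TK

open Pool.Agent.LEV Pool.Agent.LVB Pool.Agent.KSL
open Pool.Agent.LK (PQ)
open Pool.Agent.FG61 (mu phi cc ff AA Lam)
open Complex MeasureTheory Filter Topology UpperHalfPlane ModularGroup ProbabilityTheory
open scoped MatrixGroups Modular ENNReal ModularForm ComplexConjugate ContDiff

theorem tf_al {q z A : ℕ} {a : ℕ → ℝ} (h : ShC q z A a) {u : ℕ} (hu : 1 ≤ u) :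
    |al A a u| ≤ (A : ℝ) ^ 2 / u :=
  wbd_al ⟨fun k hk => ⟨(h.sup k hk).1, (h.sup k hk).2.1⟩, h.l1⟩ hu

theorem tf_wC {q z M r : ℕ} (hM : 2 ≤ M) (hb : |be z M 2| ≤ Real.log M) (hr : 1 ≤ r) :
    |wC q z M 2 r| ≤ (1 + Real.log (2 * M)) / r := by
  have hr' : (0 : ℝ) < r := by exact_mod_cast hr
  unfold wC
  refine (Finset.abs_sum_le_sum_abs _ _).trans ?_
  have h0 : ∑ m ∈ (Finset.Icc 1 (2 * M)).filter (fun m => (r * m).Coprime q), |yE z M 2 (r * m)| ≤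
      ∑ m ∈ Finset.Icc 1 (2 * M), |yE z M 2 (r * m)| :=
    Finset.sum_le_sum_of_subset_of_nonneg (Finset.filter_subset _ _) fun _ _ _ => abs_nonneg _
  refine h0.trans ?_
  have h1 : ∀ m ∈ Finset.Icc 1 (2 * M), |yE z M 2 (r * m)| ≤ 1 / (m : ℝ) * (1 / r) := by
    intro m _
    refine (wbd_yE hM hb).trans (le_of_eq ?_)
    push_cast
    rw [one_div_mul_one_div, mul_comm]
  refine (Finset.sum_le_sum h1).trans ?_
  rw [← Finset.sum_mul]
  have h2 := wbd_harm (2 * M)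
  push_cast at h2
  calc (∑ m ∈ Finset.Icc 1 (2 * M), 1 / (m : ℝ)) * (1 / r)
      ≤ (1 + Real.log (2 * M)) * (1 / r) := mul_le_mul_of_nonneg_right h2 (by positivity)
    _ = (1 + Real.log (2 * M)) / r := by ring

theorem ww_boundC {δ : ℝ} (h0 : 0 < δ) (h1 : δ < 1 / 4) {ε : ℝ} (hε : 0 < ε) : ∃ N₀ : ℕ,
    ∀ n : ℕ, N₀ ≤ n → ∀ q : ℕ, 1 ≤ q → ∀ a : ℕ → ℝ, ShC q (zz n) (KA ε n) a →
      (∀ d, 1 ≤ d → |wwC q δ ε n a d| ≤ (n : ℝ) ^ (4 * ε) / d) ∧
      ∀ Y : ℕ, Y ≤ n → ∑ d ∈ Finset.Icc 1 Y, |wwC q δ ε n a d| * ∑ e ∈ d.divisors, (e : ℝ) ≤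
        (n : ℝ) ^ (5 * ε) * Y := by
  obtain ⟨N₁, H1⟩ := sizes h0 h1 (show (0 : ℝ) < 1 by norm_num)
  obtain ⟨N₂, H2⟩ := be_small h0 h1 (show (0 : ℝ) < 1 by norm_num)
  obtain ⟨N₃, H3⟩ := wbd_growth hε
  refine ⟨max N₁ (max N₂ N₃), fun N hN q _ a ha => ?_⟩
  obtain ⟨hN3, hz2, hzM, -⟩ := H1 N ((le_max_left _ _).trans hN)
  obtain ⟨-, hbe, -⟩ := H2 N (((le_max_left _ _).trans (le_max_right _ _)).trans hN)
  have hgr := H3 N (((le_max_right _ _).trans (le_max_right _ _)).trans hN)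
  rw [one_mul] at hbe
  have hM2 : 2 ≤ MM δ N := by omega
  have hN1 : (1 : ℝ) ≤ N := by exact_mod_cast (by omega : 1 ≤ N)
  have hN0 : (0 : ℝ) < N := by linarith
  have hMN : (MM δ N : ℝ) ≤ N := by
    unfold MM
    refine (Nat.floor_le (by positivity)).trans ?_
    calc (N : ℝ) ^ (1 / 2 - δ) ≤ (N : ℝ) ^ (1 : ℝ) :=
          Real.rpow_le_rpow_of_exponent_le hN1 (by linarith)
      _ = N := Real.rpow_one _
  have hM0 : (0 : ℝ) < MM δ N := by exact_mod_cast (by omega : 0 < MM δ N)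
  have hlog : 1 + Real.log (2 * MM δ N) ≤ (N : ℝ) ^ ε := by
    refine le_trans ?_ hgr
    have := Real.log_le_log (show (0 : ℝ) < 2 * MM δ N by positivity)
      (show (2 : ℝ) * MM δ N ≤ 2 * N by linarith)
    linarith
  have hA : ((KA ε N : ℕ) : ℝ) ≤ (N : ℝ) ^ ε := by
    unfold KA
    exact Nat.floor_le (by positivity)
  have hE1 : (1 : ℝ) ≤ (N : ℝ) ^ ε := Real.one_le_rpow hN1 hε.le
  have key : ∀ d, 1 ≤ d → |wwC q δ ε N a d| ≤ (N : ℝ) ^ (3 * ε) / d := by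
    intro d hd
    have hs := wbd_smp_pos (zz N) hd
    have hr := wbd_rop_pos (zz N) hd
    have hs' : (0 : ℝ) < smp (zz N) d := by exact_mod_cast hs
    have hr' : (0 : ℝ) < rop (zz N) d := by exact_mod_cast hr
    have hq' : (smp (zz N) d : ℝ) * rop (zz N) d = d := by exact_mod_cast wbd_smp_rop (zz N) hd
    unfold wwC wAC
    rw [abs_mul]
    have b1 : |al (KA ε N) a (smp (zz N) d)| ≤ (N : ℝ) ^ ε * (N : ℝ) ^ ε / smp (zz N) d := by
      refine (tf_al ha hs).trans (div_le_div_of_nonneg_right ?_ hs'.le)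
      rw [pow_two]
      exact mul_le_mul hA hA (Nat.cast_nonneg _) (by positivity)
    have b2 : |wC q (zz N) (MM δ N) 2 (rop (zz N) d)| ≤ (N : ℝ) ^ ε / rop (zz N) d :=
      (tf_wC hM2 hbe hr).trans (div_le_div_of_nonneg_right hlog hr'.le)
    refine (mul_le_mul b1 b2 (abs_nonneg _) (by positivity)).trans (le_of_eq ?_)
    rw [div_mul_div_comm, hq']
    congr 1
    rw [← Real.rpow_add hN0, ← Real.rpow_add hN0]
    congr 1
    ring
  refine ⟨fun d hd => (key d hd).trans ?_, fun Y hY => ?_⟩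
  · refine div_le_div_of_nonneg_right ?_ (Nat.cast_nonneg _)
    exact Real.rpow_le_rpow_of_exponent_le hN1 (by linarith)
  · have b1 : ∀ d ∈ Finset.Icc 1 Y, |wwC q δ ε N a d| * ∑ e ∈ d.divisors, (e : ℝ) ≤
        (N : ℝ) ^ (3 * ε) * (N : ℝ) ^ ε := by
      intro d hd
      obtain ⟨hd1, hd2⟩ := Finset.mem_Icc.1 hd
      have hd0 : (0 : ℝ) < d := by exact_mod_cast hd1
      have hdN : (d : ℝ) ≤ 2 * N := by
        have : (d : ℝ) ≤ N := by exact_mod_cast hd2.trans hY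
        linarith
      have b2 := mul_le_mul (key d hd1) (wbd_sigma hd1) (by positivity) (by positivity)
      refine b2.trans ?_
      have b3 : 1 + Real.log d ≤ (N : ℝ) ^ ε := by
        have := Real.log_le_log hd0 hdN
        linarith
      calc (N : ℝ) ^ (3 * ε) / d * (d * (1 + Real.log d))
          = (N : ℝ) ^ (3 * ε) * (1 + Real.log d) := by field_simp
        _ ≤ (N : ℝ) ^ (3 * ε) * (N : ℝ) ^ ε := mul_le_mul_of_nonneg_left b3 (by positivity)
    refine (Finset.sum_le_sum b1).trans ?_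
    rw [Finset.sum_const, Nat.card_Icc, nsmul_eq_mul, Nat.add_sub_cancel, mul_comm]
    refine mul_le_mul_of_nonneg_right ?_ (Nat.cast_nonneg _)
    rw [← Real.rpow_add hN0]
    exact Real.rpow_le_rpow_of_exponent_le hN1 (by linarith)

end Pool.Agent.TK
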